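import Pool.Agent.helper16.EXG.Spec

set_option autoImplicit false

open Finset

namespace Pool.Agent.EXC

/-- the computation in a group -/
theorem GVA_grp {G : Type} [Group G] (A B cp cP caq cab cab' cp' : G)
    (h1 : B * caq * B⁻¹ = caq * cP) (h2 : B * cp = cp * B) (h3 : cp * cP = cp') (h4 : caq * cP = cP * caq)
    (h5 : A * cp' * A⁻¹ = cp' * cab) (h6 : A * caq = caq * A) (h7 : cab * caq = cab' * caq) :
    (A * B) * (cp * caq) * (A * B)⁻¹ * (cp * caq)⁻¹ = cp' * cab' * cp⁻¹ := by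
  have e1 : B * (cp * caq) * B⁻¹ = cp' * caq := by
    calc B * (cp * caq) * B⁻¹ = (B * cp) * caq * B⁻¹ := by group
      _ = cp * (B * caq * B⁻¹) := by rw [h2]; group
      _ = cp * (cP * caq) := by rw [h1, h4]
      _ = cp' * caq := by rw [← mul_assoc, h3]
  calc (A * B) * (cp * caq) * (A * B)⁻¹ * (cp * caq)⁻¹ = A * (B * (cp * caq) * B⁻¹) * A⁻¹ * (cp * caq)⁻¹ := by group
    _ = A * (cp' * caq) * A⁻¹ * (cp * caq)⁻¹ := by rw [e1]
    _ = (A * cp' * A⁻¹) * ((A * caq) * A⁻¹) * (cp * caq)⁻¹ := by group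
    _ = (cp' * cab) * ((caq * A) * A⁻¹) * (cp * caq)⁻¹ := by rw [h5, h6]
    _ = cp' * (cab * caq) * (cp * caq)⁻¹ := by group
    _ = cp' * (cab' * caq) * (cp * caq)⁻¹ := by rw [h7]
    _ = cp' * cab' * cp⁻¹ := by group

theorem GVA (hGXC : GXC_stmt) : GVA_stmt := by
  intro n C _ F _ hb a c ha hc hac κ hκ P Q
  have hca : ip C c a = -1 := by rw [ip_comm, hac]
  have hacr : ip C (a + c) (a + c) = 2 := by
    rw [ip_add_left, ip_add_right, ip_add_right, ha, hc, hac, hca]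
    norm_num
  have hna : ip C (-a) (-a) = 2 := by
    rw [ip_neg_left, ip_neg_right, ha]
    norm_num
  have hnac : ip C (-a) (a + c) = -1 := by
    rw [ip_neg_left, ip_add_right, ha, hac]
    norm_num
  have hnc : 0 ≤ ip C (-a) c := by
    rw [ip_neg_left, hac]
    norm_num
  have haac : 0 ≤ ip C a (a + c) := by
    rw [ip_add_right, ha, hac]
    norm_num
  have hcac : 0 ≤ ip C (a + c) c := by
    rw [ip_add_left, hac, hc]
    norm_num
  set ε : F := (sg C a c : F) with hε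
  set ε' : F := (sg C (-a) (a + c) : F) with hε'
  have hε2 : ε * ε = 1 := sg_sq C a c
  have hε2' : ε' * ε' = 1 := sg_sq C (-a) (a + c)
  refine ⟨Q * ε - P, P * ε' / κ, fun h => ?_, fun h => ?_, ?_⟩
  · rw [h, zero_mul, zero_div]
  · rw [h, zero_mul, zero_sub]
  -- the facts
  have c1 : (-a) + (a + c) = c := by abel
  have g1 := (hGXC n C F hb (-a) (a + c) hna hacr κ (P * ε' / κ)).2.2.2 hnac
  rw [c1] at g1
  have hP : κ * (P * ε' / κ) * ε' = P := by
    have : κ * (P * ε' / κ) * ε' = P * (ε' * ε') := by field_simp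
    rw [this, hε2', mul_one]
  rw [← hε', hP] at g1
  have g2 := (hGXC n C F hb (-a) c hna hc κ (Q * ε - P)).2.2.1 hnc
  have g3 := (hGXC n C F hb c c hc hc (Q * ε - P) P).1
  have g4 := (hGXC n C F hb (a + c) c hacr hc (P * ε' / κ) P).2.2.1 hcac
  have e3 : Q * ε - P + P = Q * ε := by ring
  rw [e3] at g3
  have g5 := (hGXC n C F hb a c ha hc 1 (Q * ε)).2.2.2 hac
  have e5 : (1 : F) * (Q * ε) * ε = Q := by rw [one_mul, mul_assoc, hε2, mul_one]
  rw [← hε, e5] at g5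
  have g6 := (hGXC n C F hb a (a + c) ha hacr 1 (P * ε' / κ)).2.2.1 haac
  have key := GVA_grp _ _ _ _ _ _ _ _ g1 g2 g3.symm g4 g5 g6 rfl
  rw [key]
  -- `x_c(Q ε) x_{a+c}(Q) x_c(Q ε - P)⁻¹ = x_c(P) x_{a+c}(Q)`
  have g7 := (hGXC n C F hb (a + c) c hacr hc Q (Q * ε - P)).2.2.1 hcac
  have g8 := (hGXC n C F hb c c hc hc P (Q * ε - P)).1
  have e8 : P + (Q * ε - P) = Q * ε := by ring
  rw [e8] at g8
  rw [g8, mul_inv_eq_iff_eq_mul, mul_assoc, mul_assoc, g7]

end Pool.Agent.EXC
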